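import Pool.Agent.TH801.TU.Main

set_option autoImplicit false

/-!
# Linear forms in ordinates of zeros avoid zeros

Unconditionally: let `s, r 0` be nonzero and `r 1, ..., r m` arbitrary reals, `B` a set of at least
`η T log T` ordinates in `(0, K T]` of zeros of the zeta function on the critical line, and
`A 0, ..., A m` finite sets of reals in `[-K T, K T]`, where `A 0` has at most `w` elements in each
interval `[y, y + 1)`. Then for all but at most `w T^(499/500) |A 1| ... |A m|` tuples `x`,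
at least `c |B|` elements `γ` of `B` are such that all zeros of zeta have distance at least
`c / log T` from `1/2 + i (s γ + r 0 x 0 + ... + r m x m)`.
-/

namespace Pool.Agent.Results.MP_0f5a55_nt.TuplesAvoidZeros

theorem result (m : ℕ) (s : ℝ) (r : Fin (m + 1) → ℝ) (hs : s ≠ 0) (hr : r 0 ≠ 0) (K η : ℝ)
    (hη : 0 < η) : ∃ c T₁ : ℝ, 0 < c ∧ ∀ T : ℝ, T₁ ≤ T → ∀ B : Finset ℝ,
    (∀ γ ∈ B, 0 < γ ∧ γ ≤ K * T ∧ riemannZeta (1 / 2 + Complex.I * (γ : ℂ)) = 0) →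
    η * T * Real.log T ≤ B.card →
    ∀ (A : Fin (m + 1) → Finset ℝ) (w : ℝ), (∀ j, ∀ x ∈ A j, |x| ≤ K * T) →
    (∀ y : ℝ, (((A 0).filter (fun a => y ≤ a ∧ a < y + 1)).card : ℝ) ≤ w) →
    ({x : Fin (m + 1) → ℝ | (∀ j, x j ∈ A j) ∧
      ({γ : ℝ | γ ∈ B ∧ ∀ ρ : ℂ, riemannZeta ρ = 0 →
        c / Real.log T ≤
          ‖ρ - (1 / 2 + Complex.I * ((s * γ + ∑ j, r j * x j : ℝ) : ℂ))‖}.ncard : ℝ) <
        c * B.card}.ncard : ℝ) ≤
      w * T ^ (499 / 500 : ℝ) * ∏ j : Fin m, ((A j.succ).card : ℝ) :=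
  Pool.Agent.TH801.TU.main m s r hs hr K η hη

end Pool.Agent.Results.MP_0f5a55_nt.TuplesAvoidZeros
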